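import Mathlib

/-!
# Complex cubic fields have exactly one real embedding
-/

set_option autoImplicit false

open NumberField

namespace Pool.Agent.X163.Stark

theorem card_real_ringHom (K : Type) [Field K] [NumberField K] :
    Nat.card (K →+* ℝ) = InfinitePlace.nrRealPlaces K := by
  classical
  rw [← InfinitePlace.card_real_embeddings, ← Nat.card_eq_fintype_card]
  refine Nat.card_congr ⟨fun σ => ⟨Complex.ofRealHom.comp σ, ?_⟩, fun φ => φ.2.embedding, fun σ => ?_, fun φ => ?_⟩
  · show ComplexEmbedding.conjugate (Complex.ofRealHom.comp σ) = Complex.ofRealHom.comp σ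
    ext x
    simp [ComplexEmbedding.conjugate_coe_eq]
  · ext x
    have h : ComplexEmbedding.IsReal (Complex.ofRealHom.comp σ) := by
      show ComplexEmbedding.conjugate (Complex.ofRealHom.comp σ) = Complex.ofRealHom.comp σ
      ext x
      simp [ComplexEmbedding.conjugate_coe_eq]
    have h2 := ComplexEmbedding.IsReal.coe_embedding_apply h x
    have h3 : (((h.embedding x : ℝ)) : ℂ) = ((σ x : ℝ) : ℂ) := h2
    exact Complex.ofReal_injective h3
  · apply Subtype.ext
    ext x
    exact ComplexEmbedding.IsReal.coe_embedding_apply φ.2 x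

theorem card_real_cubic {K : Type} [Field K] [NumberField K] (hd : Module.finrank ℚ K = 3)
    (hK : InfinitePlace.nrComplexPlaces K = 1) : Nat.card (K →+* ℝ) = 1 := by
  rw [card_real_ringHom]
  have h := InfinitePlace.card_add_two_mul_card_eq_rank K
  rw [hd, hK] at h
  omega

end Pool.Agent.X163.Stark
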